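import Pool.Agent.W_24bb3a_h26.Red2
import Pool.Agent.W_24bb3a_h26.Grp2

/-!
# Listable sets are Diophantine over the Baumslag-Solitar group `BS(1,2)`

`G = ⟨a, t | t a t⁻¹ = a²⟩` (one relator, residually finite).  For every recursively enumerable
set `W` of natural numbers there is a fixed finite system of equations over `G` in the variables
`z₀, z₁, ...` which has a solution with `z₀ = t ^ n` if and only if `n ∈ W`.  In particular the
Diophantine problem of `G` is undecidable, already for one fixed system of equations to which a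
single equation `z₀ = t ^ n` is added.
-/

set_option autoImplicit false

namespace Pool.Agent.Results.MP_24bb3a_al.ListableSets

/-- the relator `t a t⁻¹ a⁻²` (`a` and `t` are the generators `0` and `1`) -/
def relator : FreeGroup (Fin 2) :=
  FreeGroup.of 1 * FreeGroup.of 0 * (FreeGroup.of 1)⁻¹ * ((FreeGroup.of 0)⁻¹ * (FreeGroup.of 0)⁻¹)

/-- the Baumslag-Solitar group `BS(1,2) = ⟨a, t | t a t⁻¹ a⁻²⟩` -/
abbrev G : Type := PresentedGroup ({relator} : Set (FreeGroup (Fin 2)))

/-- the value in `G` of a word in the constants `a = 0`, `t = 1` and the variables `z₀, z₁, ...`,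
when the elements `f 0, f 1, ...` are substituted for the variables -/
def value (f : ℕ → G) (w : FreeGroup (Fin 2 ⊕ ℕ)) : G :=
  FreeGroup.lift (Sum.elim (fun i : Fin 2 => (PresentedGroup.of i : G)) f) w

/-- the finite system of equations `w = 1`, `w ∈ L`, has a solution in `G` with `z₀ = t ^ n` -/
def SolvableAt (L : List (FreeGroup (Fin 2 ⊕ ℕ))) (n : ℕ) : Prop :=
  ∃ f : ℕ → G, f 0 = (PresentedGroup.of 1 : G) ^ n ∧ ∀ w ∈ L, value f w = 1

theorem exists_system {P : ℕ → Prop} (hP : Mrdp.DP (fun v : ℕ → ℕ => P (v 0))) :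
    ∃ L : List (FreeGroup (Fin 2 ⊕ ℕ)), ∀ n : ℕ, P n ↔ SolvableAt L n := by
  obtain ⟨m, L, hL⟩ := BS.DP_to_D2 hP
  refine ⟨L.map (fun w => FreeGroup.mk (w.toWord.flatMap BS.letter)), fun n => ?_⟩
  have key : (∃ f : ℕ → BS.BG, ∀ w ∈ BS.sys L n,
      FreeGroup.lift (Sum.elim (fun i : Fin 2 => BS.bof i) f) (FreeGroup.mk w) = 1) ↔ P n :=
    (BS.solvable_transport (BS.sys L n)).trans (BS.sys_solvable_iff hL n)
  have heqn : ∀ f : ℕ → BS.BG, FreeGroup.lift (Sum.elim (fun i : Fin 2 => BS.bof i) f)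
      (FreeGroup.mk (BS.eqn n)) = 1 ↔ f 0 = BS.bof 1 ^ n := by
    intro f
    rw [FreeGroup.lift_mk]
    unfold BS.eqn
    rw [List.map_cons, List.prod_cons, List.map_replicate, List.prod_replicate]
    simp only [cond_true, cond_false, Sum.elim_inr, Sum.elim_inl, inv_pow]
    rw [mul_inv_eq_one]
  rw [← key]
  constructor
  · rintro ⟨f, hf⟩
    refine ⟨f, (heqn f).1 (hf _ (by simp [BS.sys])), ?_⟩
    intro w hw
    obtain ⟨w', hw', rfl⟩ := List.mem_map.1 hw
    exact hf _ (by
      unfold BS.sys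
      exact List.mem_cons_of_mem _ (List.mem_map.2 ⟨w', hw', rfl⟩))
  · rintro ⟨f, h0, hf⟩
    refine ⟨f, fun w hw => ?_⟩
    unfold BS.sys at hw
    rw [List.mem_cons] at hw
    rcases hw with rfl | hw
    · exact (heqn f).2 h0
    · obtain ⟨w', hw', rfl⟩ := List.mem_map.1 hw
      exact hf _ (List.mem_map.2 ⟨w', hw', rfl⟩)

theorem result :
    (∀ g : G, g ≠ 1 → ∃ (m : ℕ) (φ : G →* Equiv.Perm (Fin m)), φ g ≠ 1) ∧
    (∀ W : ℕ → Prop, REPred W →
      ∃ L : List (FreeGroup (Fin 2 ⊕ ℕ)), ∀ n : ℕ, W n ↔ SolvableAt L n) ∧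
    ∃ L : List (FreeGroup (Fin 2 ⊕ ℕ)), ¬ ComputablePred (SolvableAt L) := by
  refine ⟨BS.residually_finite, fun W hW => exists_system (Mrdp.re_DP hW), ?_⟩
  obtain ⟨P, hP, hPn⟩ := Mrdp.exists_DP_not_computable
  obtain ⟨L, hL⟩ := exists_system hP
  refine ⟨L, fun h => hPn ?_⟩
  have : P = SolvableAt L := funext fun n => propext (hL n)
  rw [this]
  exact h

end Pool.Agent.Results.MP_24bb3a_al.ListableSets
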